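import Pool.Agent.W203.SP.Stm

/-! # `S_MG`: joint measurability of two Fourier transforms with parameters -/

set_option autoImplicit false

namespace Pool.Agent.W293.SP

open MeasureTheory Set Complex
open scoped ENNReal NNReal FourierTransform RealInnerProductSpace ContDiff
open Pool.Agent.H153R4 (E BS ch ST cube kk dd)
open Pool.Agent.W203.SP

theorem ee_meas : Measurable ee := by
  unfold ee
  exact Complex.measurable_exp.comp
    ((Complex.measurable_ofReal.comp (measurable_const.mul measurable_id)).mul measurable_const)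

theorem meas_F {P : Type*} [MeasurableSpace P] {k : ℕ} (G : P → E k → ℂ)
    (hG : Measurable fun r : P × E k => G r.1 r.2) :
    Measurable fun q : P × E k => 𝓕 (G q.1) q.2 := by
  simp only [Real.fourier_eq]
  have h1 : Measurable fun r : (P × E k) × E k =>
      Real.fourierChar (-⟪r.2, r.1.2⟫) • G r.1.1 r.2 := by
    have hin : Measurable fun r : (P × E k) × E k => -⟪r.2, r.1.2⟫ := by fun_prop
    have hk : Measurable fun r : (P × E k) × E k => G r.1.1 r.2 :=
      hG.comp ((measurable_fst.comp measurable_fst).prodMk measurable_snd)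
    have hc : Measurable fun r : (P × E k) × E k =>
        ((Real.fourierChar (-⟪r.2, r.1.2⟫) : Circle) : ℂ) :=
      (continuous_subtype_val.comp Real.continuous_fourierChar).measurable.comp hin
    exact hc.mul hk
  exact (h1.stronglyMeasurable.integral_prod_right' (ν := volume)).measurable

theorem pw_meas {P : Type*} [MeasurableSpace P] {k : ℕ} (w : P → ℝ) (u : P → Fin k → ℝ)
    (hw : Measurable w) (hu : Measurable u) :
    Measurable fun r : P × E k => pw (w r.1) (u r.1) r.2 := by
  unfold pw
  refine (hw.comp measurable_fst).sub (Finset.measurable_sum _ fun j _ => ?_)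
  have h1 : Measurable fun r : P × E k => u r.1 j :=
    (measurable_pi_apply j).comp (hu.comp measurable_fst)
  exact h1.mul (by fun_prop)

theorem t_MG : S_MG := by
  intro k m η f hη hf
  constructor
  · apply meas_F (fun p : (ℝ × ℝ) × (Fin k → ℝ) => ge η p.1.1 p.1.2 p.2 f)
    unfold ge
    have hp : Measurable fun r : ((ℝ × ℝ) × (Fin k → ℝ)) × E k => pw r.1.1.2 r.1.2 r.2 :=
      pw_meas (fun p : (ℝ × ℝ) × (Fin k → ℝ) => p.1.2) (fun p => p.2) (by fun_prop) (by fun_prop)
    have hs : Measurable fun r : ((ℝ × ℝ) × (Fin k → ℝ)) × E k =>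
        r.1.1.1 * Real.sqrt (pw r.1.1.2 r.1.2 r.2) :=
      (by fun_prop : Measurable fun r : ((ℝ × ℝ) × (Fin k → ℝ)) × E k => r.1.1.1).mul hp.sqrt
    exact ((hη.comp hp).mul (ee_meas.comp hs)).mul (hf.comp measurable_snd)
  · apply meas_F (fun p : ℝ × (Fin k → ℝ) => gs m p.1 p.2 f)
    unfold gs
    have hp : Measurable fun r : (ℝ × (Fin k → ℝ)) × E k => pw 1 r.1.2 r.2 :=
      pw_meas (fun _ : ℝ × (Fin k → ℝ) => 1) (fun p => p.2) measurable_const (by fun_prop)
    have hs : Measurable fun r : (ℝ × (Fin k → ℝ)) × E k =>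
        r.1.1 * Real.sqrt (pw 1 r.1.2 r.2) :=
      (by fun_prop : Measurable fun r : (ℝ × (Fin k → ℝ)) × E k => r.1.1).mul hp.sqrt
    have hd : Measurable fun r : (ℝ × (Fin k → ℝ)) × E k =>
        1 / Real.sqrt (pw 1 r.1.2 r.2) ^ m :=
      measurable_const.div (hp.sqrt.pow_const m)
    exact ((ee_meas.comp hs).mul (Complex.measurable_ofReal.comp hd)).mul (hf.comp measurable_snd)

end Pool.Agent.W293.SP
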