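import Pool.Agent.W203.SP.Stm

/-! # `S_MU`: joint measurability of the superposition of paraboloid extensions -/

set_option autoImplicit false

namespace Pool.Agent.W293.SP

open MeasureTheory Set Complex
open scoped ENNReal NNReal FourierTransform RealInnerProductSpace ContDiff
open Pool.Agent.H153R4 (E BS ch ST cube kk dd)
open Pool.Agent.W203.SP

theorem t_MU (h : S_MV) (hc : S_CR) : S_MU := by
  intro k T e f hf
  unfold U0
  have hee : Measurable ee := by
    unfold ee
    exact Complex.measurable_exp.comp
      ((Complex.measurable_ofReal.comp (measurable_const.mul measurable_id)).mul measurable_const)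
  have h1 : Measurable fun r : (((ℝ × ℝ) × (Fin k → ℝ)) × E k) × ℝ =>
      cr r.2 * ee (r.1.1.1.1 / r.2 + r.2 * r.1.1.1.2) *
        𝓕 (ch (fun j => r.2 * r.1.1.2 j) f) r.1.2 := by
    refine ((hc.1.comp measurable_snd).mul (hee.comp ?_)).mul ?_
    · fun_prop
    · have h2 : Measurable fun r : (((ℝ × ℝ) × (Fin k → ℝ)) × E k) × ℝ =>
          (((r.2, r.1.1.2), r.1.2) : (ℝ × (Fin k → ℝ)) × E k) := by fun_prop
      have h3 := (h k f hf).comp h2
      simp only [Function.comp_def] at h3
      exact h3
  exact (h1.stronglyMeasurable.integral_prod_right' (ν := volume.restrict (RT T e))).measurable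

end Pool.Agent.W293.SP
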